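import Pool.Agent.W361.LQ.Stm

/-! # Project LQ (helper361), task LQ-INIT (helper311): finite data of a continuous map -/

set_option autoImplicit false

namespace Pool.Agent.W311.LQ

open Pool.Agent.W361.LQ

theorem grid (u : UnitAddCircle) : ∃ v : ℕ, ‖u - (((v : ℝ) / 16 : ℝ) : UnitAddCircle)‖ ≤ 1 / 32 := by
  obtain ⟨x, hx, hxn⟩ := lift u
  have h1 := norm_circle_le u
  rw [← hxn, abs_le] at h1
  have h2 : ((x + 1 : ℝ) : UnitAddCircle) = u := by
    rw [← hx]
    exact AddCircle.coe_add_period (1 : ℝ) x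
  have h3 := abs_sub_round (16 * (x + 1))
  have h4 : 0 ≤ round (16 * (x + 1)) := by
    by_contra hcon
    rw [not_le] at hcon
    have h5 : (round (16 * (x + 1)) : ℝ) ≤ -1 := by
      have : round (16 * (x + 1)) ≤ -1 := by omega
      exact_mod_cast this
    rw [abs_le] at h3
    linarith
  refine ⟨(round (16 * (x + 1))).toNat, ?_⟩
  have h6 : (((round (16 * (x + 1))).toNat : ℕ) : ℝ) = (round (16 * (x + 1)) : ℝ) := by
    have : (((round (16 * (x + 1))).toNat : ℕ) : ℤ) = round (16 * (x + 1)) := Int.toNat_of_nonneg h4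
    exact_mod_cast this
  rw [h6, ← h2, ← AddCircle.coe_sub]
  refine (norm_coe_le _).trans ?_
  rw [abs_le] at h3 ⊢
  constructor <;> linarith

theorem main : S_INIT := by
  intro Y _ _ y hy f
  have hu := CompactSpace.uniformContinuous_of_continuous f.continuous
  rw [Metric.uniformContinuous_iff] at hu
  obtain ⟨δ, hδ, hu⟩ := hu (1 / 16) (by norm_num)
  obtain ⟨d, hd⟩ := exists_nat_gt (2 / δ)
  have hd1 : (0 : ℝ) < (d : ℝ) + 1 := by positivity
  have hdδ : 2 / ((d : ℝ) + 1) < δ := by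
    rw [div_lt_iff₀ hδ] at hd
    rw [div_lt_iff₀ hd1]
    nlinarith
  obtain ⟨t, ht⟩ := isCompact_univ.elim_finite_subcover
    (fun i : ℕ => Metric.ball (y i) (1 / ((d : ℝ) + 1))) (fun _ => Metric.isOpen_ball)
    (by
      intro a _
      obtain ⟨i, hi⟩ := hy.exists_dist_lt a (by positivity : (0 : ℝ) < 1 / ((d : ℝ) + 1))
      exact Set.mem_iUnion.2 ⟨i, hi⟩)
  choose v hv using fun i => grid (f (y i))
  refine ⟨t.toList.map (fun i => (i, v i)), d, ?_, ?_, ?_⟩
  · intro a b hab
    have := hu (lt_of_le_of_lt hab hdδ)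
    rw [dist_eq_norm] at this
    exact this.le
  · intro a
    have := ht (Set.mem_univ a)
    rw [Set.mem_iUnion₂] at this
    obtain ⟨i, hi, ha⟩ := this
    refine ⟨(i, v i), ?_, ha⟩
    rw [List.mem_map]
    exact ⟨i, by simpa using hi, rfl⟩
  · intro c hc
    rw [List.mem_map] at hc
    obtain ⟨i, -, rfl⟩ := hc
    exact hv i

end Pool.Agent.W311.LQ
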